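import Mathlib

/-!
Compound matrices, the Cauchy-Binet formula and the entrywise sum norm.
-/

namespace Pool.Agent.MP_646035_al.H43

open Matrix Finset

/-- Index set of the `j`-th compound matrix. -/
abbrev PC (N j : ℕ) := Set.powersetCard (Fin N) j

/-- The increasing enumeration of a `j`-subset. -/
def emb {N j : ℕ} (s : PC N j) : Fin j → Fin N := Set.powersetCard.ofFinEmbEquiv.symm s

lemma emb_strictMono {N j : ℕ} (s : PC N j) : StrictMono (emb s) :=
  (Set.powersetCard.ofFinEmbEquiv.symm s).strictMono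

lemma le_emb {N j : ℕ} (s : PC N j) (i : Fin j) : (i : ℕ) ≤ emb s i := by
  obtain ⟨i, hi⟩ := i
  induction i with
  | zero => simp
  | succ i ih =>
    have h1 := ih (by omega)
    have h2 : emb s ⟨i, by omega⟩ < emb s ⟨i + 1, hi⟩ := emb_strictMono s (by simp)
    simp only [Fin.lt_def] at h2
    simp only at h1 ⊢
    omega

lemma mem_range_emb {N j : ℕ} (s : PC N j) (i : Fin N) : i ∈ Set.range (emb s) ↔ i ∈ s :=
  Set.powersetCard.mem_range_ofFinEmbEquiv_symm_iff_mem s i

variable {R : Type*} [CommRing R]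

/-- The `j`-th compound matrix. -/
def cpd (j : ℕ) {M N : ℕ} (A : Matrix (Fin M) (Fin N) R) : Matrix (PC M j) (PC N j) R :=
  fun s t => (A.submatrix (emb s) (emb t)).det

theorem cauchyBinet {j N : ℕ} (A : Matrix (Fin j) (Fin N) R) (B : Matrix (Fin N) (Fin j) R) :
    (A * B).det = ∑ s : PC N j, (A.submatrix id (emb s)).det * (B.submatrix (emb s) id).det := by
  classical
  let b := Pi.basisFun R (Fin N)
  let f : Fin j → Module.Dual R (Fin N → R) := fun i => (dotProductBilin R R (A i))
  let v : Fin j → (Fin N → R) := fun i => Bᵀ i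
  have h1 : (A * B).det = exteriorPower.pairingDual R _ j (exteriorPower.ιMulti R j f)
      (exteriorPower.ιMulti R j v) := by
    rw [exteriorPower.pairingDual_ιMulti_ιMulti, ← det_transpose]
    congr 1
  rw [h1, ← (b.exteriorPower j).sum_repr (exteriorPower.ιMulti R j v), map_sum]
  refine Finset.sum_congr rfl fun s _ => ?_
  rw [map_smul, exteriorPower.basis_repr_apply, exteriorPower.ιMultiDual_apply_ιMulti,
    exteriorPower.basis_apply, exteriorPower.ιMulti_family,
    exteriorPower.pairingDual_ιMulti_ιMulti, smul_eq_mul, mul_comm, ← det_transpose,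
    ← det_transpose (Matrix.of _)]
  congr 2
  ext i l
  simp [f, b, emb]

lemma cpd_mul (j : ℕ) {M N P : ℕ} (A : Matrix (Fin M) (Fin N) R) (B : Matrix (Fin N) (Fin P) R) :
    cpd j (A * B) = cpd j A * cpd j B := by
  ext s t
  have : (A * B).submatrix (emb s) (emb t) = A.submatrix (emb s) id * B.submatrix id (emb t) := by
    ext i l; simp [Matrix.mul_apply]
  rw [cpd, this, cauchyBinet, Matrix.mul_apply]
  rfl

lemma cpd_one (j N : ℕ) : cpd j (1 : Matrix (Fin N) (Fin N) R) = 1 := by
  ext s t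
  by_cases h : s = t
  · subst h
    rw [cpd, Matrix.submatrix_one _ (emb_strictMono s).injective]
    simp
  · rw [Matrix.one_apply_ne h]
    obtain ⟨a, ha, ha'⟩ := (Set.powersetCard.exists_mem_notMem_iff_ne s t).1 h
    obtain ⟨i, rfl⟩ := (mem_range_emb s a).2 ha
    refine Matrix.det_eq_zero_of_row_eq_zero i fun l => ?_
    rw [Matrix.submatrix_apply, Matrix.one_apply_ne]
    intro h'
    exact ha' ((mem_range_emb t _).1 ⟨l, h'.symm⟩)

lemma cpd_map {S : Type*} [CommRing S] (φ : R →+* S) (j : ℕ) {M N : ℕ}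
    (A : Matrix (Fin M) (Fin N) R) : cpd j (A.map φ) = (cpd j A).map φ := by
  ext s t
  simp only [cpd, Matrix.map_apply, RingHom.map_det]
  rfl

lemma cpd_transpose (j : ℕ) {M N : ℕ} (A : Matrix (Fin M) (Fin N) R) :
    cpd j Aᵀ = (cpd j A)ᵀ := by
  ext s t
  simp only [cpd, Matrix.transpose_apply]
  rw [← det_transpose]
  rfl

/-- The compound matrix as a monoid homomorphism. -/
def cpdHom (j N : ℕ) : Matrix (Fin N) (Fin N) R →* Matrix (PC N j) (PC N j) R where
  toFun := cpd j
  map_one' := cpd_one j N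
  map_mul' := cpd_mul j

lemma trace_cpd (j : ℕ) {N : ℕ} (hj : j ≤ N) (A : Matrix (Fin N) (Fin N) R) :
    (cpd j A).trace = (-1) ^ j * A.charpoly.coeff (N - j) := by
  have h := Matrix.charpoly_coeff_eq_sum_minors A j (by simpa using hj)
  rw [Fintype.card_fin] at h
  rw [h, ← mul_assoc, ← mul_pow]
  simp only [mul_neg, mul_one, neg_neg, one_pow, one_mul]
  rw [Matrix.trace]
  symm
  refine Finset.sum_bij' (fun s hs => ⟨s, (Finset.mem_powersetCard.1 hs).2⟩) (fun s _ => s.1)
    (by simp) (fun s _ => by simpa using s.2) (by simp) (by simp) ?_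
  intro s hs
  have hs' := (Finset.mem_powersetCard.1 hs).2
  simp only [Matrix.diag, cpd]
  rw [← Matrix.det_submatrix_equiv_self (s.orderIsoOfFin hs').toEquiv]
  rfl

lemma cpd_one_apply {N : ℕ} (A : Matrix (Fin N) (Fin N) R) (s t : PC N 1) :
    cpd 1 A s t = A (emb s 0) (emb t 0) := by
  simp [cpd]

lemma card_PC_le (N j : ℕ) : Fintype.card (PC N j) ≤ 2 ^ N := by
  have := Fintype.card_le_of_injective (fun s : PC N j => (s : Finset (Fin N)))
    Subtype.val_injective
  simpa using this

section norm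

variable {L : Type*} [NormedField L]

/-- The sum of the norms of the entries. -/
noncomputable def nm {m n : Type*} [Fintype m] [Fintype n] (A : Matrix m n L) : ℝ :=
  ∑ i, ∑ j, ‖A i j‖

variable {m n p : Type*} [Fintype m] [Fintype n] [Fintype p]

lemma nm_nonneg (A : Matrix m n L) : 0 ≤ nm A :=
  Finset.sum_nonneg fun _ _ => Finset.sum_nonneg fun _ _ => norm_nonneg _

lemma row_le_nm (A : Matrix m n L) (i : m) : ∑ j, ‖A i j‖ ≤ nm A :=
  Finset.single_le_sum (f := fun i => ∑ j, ‖A i j‖)
    (fun _ _ => Finset.sum_nonneg fun _ _ => norm_nonneg _) (Finset.mem_univ i)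

lemma entry_le_nm (A : Matrix m n L) (i : m) (j : n) : ‖A i j‖ ≤ nm A :=
  (Finset.single_le_sum (f := fun j => ‖A i j‖) (fun _ _ => norm_nonneg _)
    (Finset.mem_univ j)).trans (row_le_nm A i)

lemma nm_transpose (A : Matrix m n L) : nm Aᵀ = nm A := Finset.sum_comm

lemma col_le_nm (A : Matrix m n L) (j : n) : ∑ i, ‖A i j‖ ≤ nm A := by
  rw [← nm_transpose]; exact row_le_nm Aᵀ j

lemma nm_le_of_entry {A : Matrix m n L} {c : ℝ} (h : ∀ i j, ‖A i j‖ ≤ c) :
    nm A ≤ Fintype.card m * Fintype.card n * c := by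
  calc nm A ≤ ∑ _i : m, ∑ _j : n, c :=
        Finset.sum_le_sum fun i _ => Finset.sum_le_sum fun j _ => h i j
    _ = _ := by simp [mul_assoc]

lemma nm_mul (A : Matrix m n L) (B : Matrix n p L) : nm (A * B) ≤ nm A * nm B := by
  calc nm (A * B) ≤ ∑ i, ∑ k, ∑ j, ‖A i j‖ * ‖B j k‖ := by
        refine Finset.sum_le_sum fun i _ => Finset.sum_le_sum fun k _ => ?_
        rw [Matrix.mul_apply]
        exact (norm_sum_le _ _).trans (le_of_eq (by simp))
    _ = ∑ i, ∑ j, ‖A i j‖ * ∑ k, ‖B j k‖ := by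
        refine Finset.sum_congr rfl fun i _ => ?_
        rw [Finset.sum_comm]
        simp [Finset.mul_sum]
    _ ≤ ∑ i, ∑ j, ‖A i j‖ * nm B := by
        gcongr with i _ j _
        exact row_le_nm B j
    _ = _ := by simp [nm, Finset.sum_mul]

lemma nm_mul3 {q : Type*} [Fintype q] (A : Matrix m n L) (B : Matrix n p L) (C : Matrix p q L) :
    nm (A * B * C) ≤ nm A * nm B * nm C :=
  (nm_mul _ _).trans (mul_le_mul_of_nonneg_right (nm_mul _ _) (nm_nonneg _))

lemma nm_add (A B : Matrix m n L) : nm (A + B) ≤ nm A + nm B := by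
  simp only [nm, ← Finset.sum_add_distrib]
  gcongr with i _ j _
  exact norm_add_le _ _

lemma nm_smul (c : L) (A : Matrix m n L) : nm (c • A) = ‖c‖ * nm A := by
  simp [nm, Finset.mul_sum]

lemma nm_zero : nm (0 : Matrix m n L) = 0 := by simp [nm]

lemma nm_sum {ι : Type*} (s : Finset ι) (A : ι → Matrix m n L) :
    nm (∑ i ∈ s, A i) ≤ ∑ i ∈ s, nm (A i) := by
  classical
  induction s using Finset.induction_on with
  | empty => simp [nm_zero]
  | insert a s ha ih =>
    rw [Finset.sum_insert ha, Finset.sum_insert ha]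
    exact (nm_add _ _).trans (by linarith)

lemma nm_pos {A : Matrix m n L} (h : A ≠ 0) : 0 < nm A := by
  by_contra h'
  apply h
  ext i j
  have := (entry_le_nm A i j).trans (not_lt.1 h')
  simpa using this

lemma trace_le_nm (A : Matrix m m L) : ‖A.trace‖ ≤ nm A :=
  (norm_sum_le _ _).trans (Finset.sum_le_sum fun i _ =>
    Finset.single_le_sum (f := fun j => ‖A i j‖) (fun _ _ => norm_nonneg _) (Finset.mem_univ i))

lemma nm_one [DecidableEq m] : nm (1 : Matrix m m L) = Fintype.card m := by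
  simp [nm, Matrix.one_apply, apply_ite]

lemma det_le_of_entry [DecidableEq m] {A : Matrix m m L} {c : ℝ} (h : ∀ i j, ‖A i j‖ ≤ c) :
    ‖A.det‖ ≤ (Fintype.card m).factorial * c ^ Fintype.card m := by
  rw [Matrix.det_apply']
  refine (norm_sum_le _ _).trans ?_
  calc ∑ σ : Equiv.Perm m, ‖((Equiv.Perm.sign σ : ℤ) : L) * ∏ i, A (σ i) i‖
      ≤ ∑ _σ : Equiv.Perm m, c ^ Fintype.card m := by
        refine Finset.sum_le_sum fun σ _ => ?_
        have : ‖((Equiv.Perm.sign σ : ℤ) : L)‖ = 1 := by
          rcases Int.units_eq_one_or (Equiv.Perm.sign σ) with h | h <;> simp [h]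
        rw [norm_mul, this, one_mul, norm_prod, ← Finset.card_univ, ← Finset.prod_const]
        exact Finset.prod_le_prod (fun _ _ => norm_nonneg _) fun i _ => h _ _
    _ = _ := by simp [Fintype.card_perm]

lemma exists_emb_comp {N j : ℕ} {f : Fin j → Fin N} (hf : Function.Injective f) :
    ∃ (s : PC N j) (e : Fin j ≃ Fin j), f = emb s ∘ e := by
  let s : PC N j := ⟨Finset.univ.image f, by
    simp [Set.powersetCard, Finset.card_image_of_injective _ hf]⟩
  have h : ∀ i, ∃ l, emb s l = f i := fun i => (mem_range_emb s (f i)).2 (by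
    change f i ∈ Finset.univ.image f; simp)
  choose g hg using h
  have hg' : Function.Injective g := fun a b hab => hf (by rw [← hg, ← hg, hab])
  exact ⟨s, Equiv.ofBijective g (Finite.injective_iff_bijective.1 hg'), by
    funext i; simp [hg]⟩

/-- Any minor is bounded by the norm of the compound matrix. -/
lemma minor_le {j M N : ℕ} (A : Matrix (Fin M) (Fin N) L) (f : Fin j → Fin M) (g : Fin j → Fin N) :
    ‖(A.submatrix f g).det‖ ≤ nm (cpd j A) := by
  by_cases hf : Function.Injective f
  · by_cases hg : Function.Injective g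
    · obtain ⟨s, e, rfl⟩ := exists_emb_comp hf
      obtain ⟨t, e', rfl⟩ := exists_emb_comp hg
      have : A.submatrix (emb s ∘ e) (emb t ∘ e') =
          ((A.submatrix (emb s) (emb t)).submatrix e id).submatrix id e' := rfl
      rw [this, Matrix.det_permute', Matrix.det_permute, norm_mul, norm_mul]
      have h1 : ∀ σ : Equiv.Perm (Fin j), ‖((Equiv.Perm.sign σ : ℤ) : L)‖ = 1 := fun σ => by
        rcases Int.units_eq_one_or (Equiv.Perm.sign σ) with h | h <;> simp [h]
      rw [h1, h1, one_mul, one_mul]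
      exact entry_le_nm (cpd j A) s t
    · obtain ⟨a, b, hab, hne⟩ := Function.not_injective_iff.1 hg
      rw [Matrix.det_zero_of_column_eq hne (fun k => by simp [hab])]
      simpa using nm_nonneg _
  · obtain ⟨a, b, hab, hne⟩ := Function.not_injective_iff.1 hf
    rw [Matrix.det_zero_of_row_eq hne (by funext k; simp [hab])]
    simpa using nm_nonneg _

lemma nm_cpd_le {N : ℕ} {j : ℕ} (hj : j ≤ N) (A : Matrix (Fin N) (Fin N) L) {c : ℝ} (hc : 1 ≤ c)
    (h : nm A ≤ c) : nm (cpd j A) ≤ 2 ^ N * 2 ^ N * (N.factorial * c ^ N) := by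
  have h1 : ∀ s t, ‖cpd j A s t‖ ≤ N.factorial * c ^ N := fun s t => by
    refine (det_le_of_entry (c := c) fun i l => (entry_le_nm A _ _).trans h).trans ?_
    rw [Fintype.card_fin]
    gcongr
  refine (nm_le_of_entry h1).trans ?_
  have h2 : (Fintype.card (PC N j) : ℝ) ≤ 2 ^ N := by exact_mod_cast card_PC_le N j
  gcongr

end norm

end Pool.Agent.MP_646035_al.H43
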