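import Pool.Agent.MP_646035_al.H43.Cpd

/-!
Places, the Liouville inequality, and generalised inverses with bounded entries.
-/

namespace Pool.Agent.MP_646035_al.H43

open Matrix Finset

/-- An embedding of `k` into an algebraically closed normed field. -/
structure Plc (k : Type) [Field k] where
  L : Type
  [nf : NormedField L]
  [ac : IsAlgClosed L]
  σ : k →+* L

attribute [instance] Plc.nf Plc.ac

lemma det_mem {S A : Type*} [CommRing A] [SetLike S A] [SubringClass S A] (s : S)
    {n : Type*} [Fintype n] [DecidableEq n] {M : Matrix n n A} (h : ∀ i j, M i j ∈ s) :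
    M.det ∈ s := by
  rw [Matrix.det_apply']
  exact sum_mem fun σ _ => mul_mem (intCast_mem s _) (prod_mem fun i _ => h _ _)

theorem exists_cur {k : Type*} [Field k] {m n : Type*} [Fintype m] [Fintype n]
    (V : Matrix m n k) : ∃ (r : ℕ) (p : Fin r → m) (q : Fin r → n), r ≤ Fintype.card m ∧
      (V.submatrix p q).det ≠ 0 ∧
      V.submatrix id q * (V.submatrix p q)⁻¹ * V.submatrix p id = V := by
  classical
  let P : ℕ → Prop := fun r => ∃ (p : Fin r → m) (q : Fin r → n), (V.submatrix p q).det ≠ 0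
  have hP : ∀ r, P r → r ≤ Fintype.card m := by
    rintro r ⟨p, q, h⟩
    have : Function.Injective p := by
      intro a b hab
      by_contra hne
      exact h (Matrix.det_zero_of_row_eq hne (by funext l; simp [hab]))
    simpa using Fintype.card_le_of_injective p this
  have h0 : P 0 := ⟨Fin.elim0, Fin.elim0, by simp⟩
  obtain ⟨r, hr, ⟨p, q, h⟩, hmax⟩ : ∃ r ≤ Fintype.card m, P r ∧ ¬ P (r + 1) :=
    ⟨_, Nat.findGreatest_le _, Nat.findGreatest_spec (P := P) (Nat.zero_le (Fintype.card m)) h0,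
      fun h' => Nat.findGreatest_is_greatest (Nat.lt_succ_self _) (hP _ h') h'⟩
  refine ⟨r, p, q, hr, h, ?_⟩
  ext i j
  set A := V.submatrix p q with hA
  let _ : Invertible A := Matrix.invertibleOfIsUnitDet A (isUnit_iff_ne_zero.2 h)
  let p' : Fin r ⊕ Fin 1 → m := Sum.elim p fun _ => i
  let q' : Fin r ⊕ Fin 1 → n := Sum.elim q fun _ => j
  have h1 : (V.submatrix p' q').det = 0 := by
    by_contra h'
    refine hmax ⟨p' ∘ finSumFinEquiv.symm, q' ∘ finSumFinEquiv.symm, ?_⟩
    rwa [← Matrix.det_submatrix_equiv_self finSumFinEquiv.symm] at h'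
  have h2 : V.submatrix p' q' = Matrix.fromBlocks A (V.submatrix p fun _ => j)
      (V.submatrix (fun _ => i) q) (V.submatrix (fun _ => i) fun _ => j) := by
    ext (a | a) (b | b) <;> rfl
  rw [h2, Matrix.det_fromBlocks₁₁, mul_eq_zero, or_iff_right h, Matrix.det_unique,
    Matrix.sub_apply, sub_eq_zero, Matrix.invOf_eq_nonsing_inv] at h1
  rw [show V i j = _ from h1]
  simp [Matrix.mul_apply]

variable {k : Type} [Field k] {V : Type} (P : V → Plc k) (R : Subring k)

/-- Elements of `R` bounded by `T` at all places. -/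
def Bdd (T : ℝ) (x : k) : Prop := x ∈ R ∧ ∀ v, ‖(P v).σ x‖ ≤ T

/-- The Liouville inequality. -/
def LV (c : ℕ) : Prop :=
  ∀ T : ℝ, 1 ≤ T → ∀ x, Bdd P R T x → x ≠ 0 → ∀ v, 1 ≤ ‖(P v).σ x‖ * T ^ c

lemma exists_pow_ge (C : ℝ) : ∃ c : ℕ, ∀ T : ℝ, 2 ≤ T → C ≤ T ^ c := by
  obtain ⟨c, hc⟩ := pow_unbounded_of_one_lt C (one_lt_two (α := ℝ))
  exact ⟨c, fun T hT => hc.le.trans (by gcongr)⟩

variable {P R}

lemma Bdd.mono {T T' : ℝ} {x : k} (h : Bdd P R T x) (hT : T ≤ T') : Bdd P R T' x :=
  ⟨h.1, fun v => (h.2 v).trans hT⟩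

theorem exists_ginv {c : ℕ} (hLV : LV P R c) (m n : Type) [Fintype m] [Fintype n] :
    ∃ c' : ℕ, ∀ T : ℝ, 2 ≤ T → ∀ A : Matrix m n k, (∀ i j, Bdd P R T (A i j)) →
      ∃ G : Matrix n m k, A * G * A = A ∧ (∀ v, nm (G.map (P v).σ) ≤ T ^ c') ∧
        ∀ k0 : Subfield k, (∀ i j, A i j ∈ k0) → ∀ i j, G i j ∈ k0 := by
  classical
  set M := Fintype.card m with hM
  obtain ⟨c1, hc1⟩ := exists_pow_ge (M.factorial : ℝ)
  obtain ⟨c2, hc2⟩ := exists_pow_ge (Fintype.card n * M * (M * M) : ℝ)
  refine ⟨c2 + (c1 + M) * (c + 1), fun T hT A hA => ?_⟩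
  obtain ⟨r, p, q, hr, hdet, hcur⟩ := exists_cur A
  set B := A.submatrix p q with hB
  have hT1 : 1 ≤ T := by linarith
  have hdb : ∀ v, ∀ D : Matrix (Fin r) (Fin r) k, (∀ i j, ‖(P v).σ (D i j)‖ ≤ T) →
      ‖(P v).σ D.det‖ ≤ T ^ (c1 + M) := by
    intro v D hD
    rw [RingHom.map_det]
    refine (det_le_of_entry (c := T) hD).trans ?_
    rw [Fintype.card_fin, pow_add]
    refine mul_le_mul (le_trans ?_ (hc1 T hT)) (pow_le_pow_right₀ hT1 hr) (by positivity)
      (by positivity)
    exact_mod_cast Nat.factorial_le hr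
  have hinv : ∀ v a b, ‖(P v).σ (B⁻¹ a b)‖ ≤ T ^ ((c1 + M) * (c + 1)) := by
    intro v a b
    have h1 := hLV (T ^ (c1 + M)) (one_le_pow₀ hT1) B.det
      ⟨det_mem R fun i j => (hA _ _).1, fun v => hdb v B fun i j => (hA _ _).2 v⟩ hdet v
    have h2 : ‖(P v).σ (B.adjugate a b)‖ ≤ T ^ (c1 + M) := by
      rw [Matrix.adjugate_apply]
      refine hdb v _ fun i j => ?_
      rw [Matrix.updateRow_apply]
      split_ifs
      · rw [Pi.single_apply]; split_ifs <;> simp [hT1, (by linarith : (0 : ℝ) ≤ T)]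
      · exact (hA _ _).2 v
    have h3 : 0 < ‖(P v).σ B.det‖ := norm_pos_iff.2 ((map_ne_zero _).2 hdet)
    rw [Matrix.inv_def, Matrix.smul_apply, Ring.inverse_eq_inv', smul_eq_mul, map_mul, map_inv₀,
      norm_mul, norm_inv, pow_mul, pow_succ]
    refine mul_le_mul ?_ h2 (norm_nonneg _) (by positivity)
    rw [inv_le_iff_one_le_mul₀' h3]
    exact h1
  let Q : Matrix n (Fin r) k := (1 : Matrix n n k).submatrix id q
  let Q' : Matrix (Fin r) m k := (1 : Matrix m m k).submatrix p id
  have hQ : A * Q = A.submatrix id q := by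
    ext i a; simp [Q, Matrix.mul_apply, Matrix.one_apply]
  have hQ' : Q' * A = A.submatrix p id := by
    ext i a; simp [Q', Matrix.mul_apply, Matrix.one_apply]
  refine ⟨Q * B⁻¹ * Q', ?_, fun v => ?_, fun k0 hk0 i j => ?_⟩
  · rw [← Matrix.mul_assoc, ← Matrix.mul_assoc, hQ, Matrix.mul_assoc, hQ', hcur]
  · have h1 : ∀ i j, ‖(Q * B⁻¹ * Q').map (P v).σ i j‖ ≤ M * M * T ^ ((c1 + M) * (c + 1)) := by
      intro i j
      simp only [Matrix.map_apply, Matrix.mul_apply, map_sum, map_mul, Finset.sum_mul]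
      refine (norm_sum_le _ _).trans ?_
      calc _ ≤ ∑ _b : Fin r, ∑ _a : Fin r, T ^ ((c1 + M) * (c + 1)) := by
            refine Finset.sum_le_sum fun b _ => (norm_sum_le _ _).trans
              (Finset.sum_le_sum fun a _ => ?_)
            have h0 : (0 : ℝ) ≤ T ^ ((c1 + M) * (c + 1)) := by positivity
            simp only [Q, Q', submatrix_apply, id, Matrix.one_apply]
            split_ifs <;> simp [hinv v a b, h0]
        _ ≤ _ := by
            have : (r : ℝ) ≤ M := by exact_mod_cast hr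
            simp only [Finset.sum_const, Finset.card_univ, Fintype.card_fin, nsmul_eq_mul]
            rw [← mul_assoc]
            gcongr
    refine (nm_le_of_entry h1).trans ?_
    rw [pow_add, ← mul_assoc]
    exact mul_le_mul_of_nonneg_right (hc2 T hT) (by positivity)
  · simp only [Matrix.mul_apply]
    refine sum_mem fun b _ => mul_mem (sum_mem fun a _ => mul_mem ?_ ?_) ?_
    · simp only [Q, submatrix_apply, Matrix.one_apply]; split_ifs <;> simp
    · rw [Matrix.inv_def, Matrix.smul_apply, Ring.inverse_eq_inv', smul_eq_mul,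
        Matrix.adjugate_apply]
      refine mul_mem (inv_mem (det_mem k0 fun i j => hk0 _ _)) (det_mem k0 fun i j => ?_)
      rw [Matrix.updateRow_apply]
      split_ifs
      · rw [Pi.single_apply]; split_ifs <;> simp
      · exact hk0 _ _
    · simp only [Q', submatrix_apply, Matrix.one_apply]; split_ifs <;> simp

end Pool.Agent.MP_646035_al.H43
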