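import Pool.Agent.MP_646035_al.H43.Cur

/-!
Hermitian linear algebra, Burnside's theorem and the linear algebra behind Borel density.
-/

namespace Pool.Agent.MP_646035_al.H43

open Matrix Filter Topology
open scoped ComplexOrder

variable {n : Type} [Fintype n] [DecidableEq n]

omit [DecidableEq n] in
lemma eq_zero_of_re_trace {X : Matrix n n ℂ} (h : (Xᴴ * X).trace.re = 0) : X = 0 :=
  trace_conjTranspose_mul_self_eq_zero_iff.1 (Complex.ext h
    (Complex.nonneg_iff.1 (posSemidef_conjTranspose_mul_self X).trace_nonneg).2.symm)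

omit [DecidableEq n] in
lemma re_trace_comm (X Y : Matrix n n ℂ) : (Xᴴ * Y).trace.re = (Yᴴ * X).trace.re := by
  rw [← Complex.conj_re, ← Complex.star_def, ← trace_conjTranspose, conjTranspose_mul,
    conjTranspose_conjTranspose]

omit [DecidableEq n] in
lemma exists_perp (U : Submodule ℝ (Matrix n n ℂ)) (X : Matrix n n ℂ) :
    ∃ Y ∈ U, ∀ Z ∈ U, (Zᴴ * (X - Y)).trace.re = 0 := by
  let B : LinearMap.BilinForm ℝ (Matrix n n ℂ) := LinearMap.mk₂ ℝ (fun X Y => (Xᴴ * Y).trace.re)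
    (fun _ _ _ => by simp [add_mul]) (fun _ _ _ => by simp) (fun _ _ _ => by simp [mul_add])
    fun _ _ _ => by simp
  have h1 : B.IsRefl := fun X Y h => (re_trace_comm Y X).trans h
  have h2 := B.isCompl_orthogonal_of_restrict_nondegenerate (W := U) h1
    (B.nondegenerate_restrict_of_disjoint_orthogonal h1 (Submodule.disjoint_def.2
      fun X h3 h4 => eq_zero_of_re_trace (h4 X h3)))
  obtain ⟨Y, h3, Z, h4, rfl⟩ := Submodule.mem_sup.1 (h2.sup_eq_top ▸ Submodule.mem_top (x := X))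
  exact ⟨Y, h3, fun W hW => by simpa [B] using h4 W hW⟩

lemma exists_onb (U : Submodule ℂ (Matrix n n ℂ)) : ∃ (N : ℕ) (e : Fin N → Matrix n n ℂ),
    (∀ a, e a ∈ U) ∧ (∀ a b, ((e a)ᴴ * e b).trace = (1 : Matrix (Fin N) (Fin N) ℂ) a b) ∧
      ∀ X ∈ U, X = ∑ a, ((e a)ᴴ * X).trace • e a := by
  let _ := (1 : Matrix n n ℂ).toMatrixNormedAddCommGroup PosDef.one
  let _ : InnerProductSpace ℂ (Matrix n n ℂ) :=
    (1 : Matrix n n ℂ).toMatrixInnerProductSpace PosSemidef.one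
  let b := stdOrthonormalBasis ℂ U
  have h : ∀ X Y : U, inner ℂ X Y = ((X : Matrix n n ℂ)ᴴ * Y).trace := fun X Y => by
    change ((Y : Matrix n n ℂ) * 1 * (X : Matrix n n ℂ)ᴴ).trace = _
    rw [mul_one, trace_mul_comm]
  refine ⟨_, fun a => b a, fun a => (b a).2, fun a c => ?_, fun X hX => ?_⟩
  · rw [← h, orthonormal_iff_ite.1 b.orthonormal, Matrix.one_apply]
  · simpa [h] using congrArg Subtype.val (b.sum_repr' ⟨X, hX⟩).symm

theorem burnside [Nonempty n] (A : Subalgebra ℂ (Matrix n n ℂ))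
    (h : ∀ U : Submodule ℂ (n → ℂ), (∀ a ∈ A, ∀ v ∈ U, a *ᵥ v ∈ U) → U = ⊥ ∨ U = ⊤) : A = ⊤ := by
  have hs : ∀ (a : A) (v : n → ℂ), a • v = (a : Matrix n n ℂ) *ᵥ v := fun _ _ => rfl
  have : IsScalarTower ℂ A (n → ℂ) := ⟨fun c a v => by simp [hs, smul_mulVec]⟩
  have : IsSimpleModule A (n → ℂ) := by
    refine { eq_bot_or_eq_top := fun U => ?_ }
    rcases h (U.restrictScalars ℂ) (fun a ha v hv => U.smul_mem ⟨a, ha⟩ hv) with h | h
    exacts [Or.inl (by simpa using h), Or.inr (by simpa using h)]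
  refine top_unique fun M _ => ?_
  let f : Module.End (Module.End A (n → ℂ)) (n → ℂ) :=
    { toFun := fun v => M *ᵥ v
      map_add' := mulVec_add M
      map_smul' := fun φ v => by
        obtain ⟨c, hc⟩ := (IsSimpleModule.algebraMap_end_bijective_of_isAlgClosed ℂ).2 φ
        simp [← hc, mulVec_smul] }
  classical
  obtain ⟨r, hr⟩ := jacobson_density f (Finset.univ.image fun i => Pi.single i 1)
  have : M = r := by
    ext i j
    simpa [f, hs] using congrFun (hr (Pi.single j 1) (by simp)) i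
  exact this ▸ r.2

lemma exists_diag {E : Matrix n n ℂ} (hE : IsUnit E) : ∃ (T T' : Matrix n n ℂ) (μ : n → ℝ),
    T * T' = 1 ∧ (∀ i, 0 < μ i) ∧ Eᴴ * E = T * diagonal (fun i => (μ i : ℂ)) * T' := by
  have h := PosDef.conjTranspose_mul_self E (mulVec_injective_iff_isUnit.2 hE)
  exact ⟨h.1.eigenvectorUnitary, star h.1.eigenvectorUnitary, h.1.eigenvalues,
    h.1.eigenvectorUnitary.2.2, h.eigenvalues_pos, h.1.spectral_theorem⟩

lemma eq_one_of_pow {E : Matrix n n ℂ} {k : ℕ} (hk : k ≠ 0) (h : (Eᴴ * E) ^ k = 1) :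
    Eᴴ * E = 1 := by
  obtain ⟨k, rfl⟩ := Nat.exists_eq_succ_of_ne_zero hk
  have h1 : (∑ i ∈ Finset.range (k + 1), (Eᴴ * E) ^ i).PosDef := by
    rw [Finset.sum_range_succ', pow_zero]
    exact PosDef.posSemidef_add (posSemidef_sum _ fun i _ =>
      (posSemidef_conjTranspose_mul_self E).pow _) PosDef.one
  have h2 := geom_sum_mul (Eᴴ * E) (k + 1)
  rwa [h, sub_self, h1.isUnit.mul_right_eq_zero, sub_eq_zero] at h2

theorem borel_mat {G : Type*} [Monoid G] [TopologicalSpace G] (τ : G →* Matrix n n ℂ)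
    (hτ : Continuous τ) {a : G} {μ : n → ℝ} (hμ : ∀ i, 0 < μ i)
    (ha : τ a = diagonal fun i => (μ i : ℂ)) (U : Submodule ℂ (n → ℂ))
    (hrec : ∀ N ∈ 𝓝 (1 : G), ∀ k0 : ℕ, ∃ k ≥ k0, ∃ x ∈ N, ∃ y ∈ N, ∃ γ,
      (∀ v ∈ U, τ γ *ᵥ v ∈ U) ∧ a ^ k * x * γ = y) : ∀ v ∈ U, τ a *ᵥ v ∈ U := by
  obtain ⟨m, u, hu⟩ := Submodule.fg_iff_exists_fin_generating_family.1
    (IsNoetherian.noetherian U)
  obtain ⟨r, p, q, -, h1, h2⟩ := exists_cur (Matrix.of u)ᵀ
  set V := (Matrix.of u)ᵀ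
  set B := V.submatrix id q * (V.submatrix p q)⁻¹ with hB
  have hU : ∀ v, v ∈ U ↔ ∃ c, V *ᵥ c = v := fun v => by
    rw [← hu, Submodule.mem_span_range_iff_exists_fun]
    refine exists_congr fun c => ?_
    rw [mulVec_transpose, vecMul_eq_sum]
    rfl
  have hU' : ∀ v, v ∈ U ↔ ∃ c, B *ᵥ c = v := fun v => by
    refine ⟨fun h => ?_, ?_⟩
    · obtain ⟨c, rfl⟩ := (hU v).1 h
      exact ⟨V.submatrix p id *ᵥ c, by rw [mulVec_mulVec, h2]⟩
    · rintro ⟨c, rfl⟩
      rw [← mulVec_mulVec, mulVec_eq_sum]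
      simp only [op_smul_eq_smul]
      exact sum_mem fun j _ => U.smul_mem _ (hu.le (Submodule.subset_span ⟨q j, rfl⟩))
  have hp : B.submatrix p id = 1 := by
    rw [hB, submatrix_mul _ _ _ id _ Function.bijective_id, submatrix_submatrix, submatrix_id_id]
    exact mul_nonsing_inv _ (isUnit_iff_ne_zero.2 h1)
  let D : (Fin r → n) → G → ℂ := fun s g => ((τ g * B).submatrix s id).det
  have hD : ∀ s, Continuous (D s) := fun s =>
    ((hτ.matrix_mul continuous_const).matrix_submatrix _ _).matrix_det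
  have key : ∀ s t, D s 1 ≠ 0 → D t 1 ≠ 0 → ∏ i, μ (s i) ≤ ∏ i, μ (t i) := by
    intro s t hs ht
    by_contra hc
    have h0 : ∀ s : Fin r → n, 0 < ∏ i, μ (s i) := fun s => Finset.prod_pos fun i _ => hμ _
    have hq := (one_lt_div (h0 t)).2 (not_le.1 hc)
    obtain ⟨k1, hk1⟩ := pow_unbounded_of_one_lt (2 : ℝ) hq
    have h3 : Tendsto (fun z : G × G => ‖D s z.2 * D t z.1‖ / ‖D t z.2 * D s z.1‖)
        (𝓝 1 ×ˢ 𝓝 1) (𝓝 (‖D s 1 * D t 1‖ / ‖D t 1 * D s 1‖)) := by
      have a1 : ∀ s, Tendsto (fun z : G × G => D s z.1) (𝓝 1 ×ˢ 𝓝 1) (𝓝 (D s 1)) :=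
        fun s => ((hD s).tendsto 1).comp tendsto_fst
      have a2 : ∀ s, Tendsto (fun z : G × G => D s z.2) (𝓝 1 ×ˢ 𝓝 1) (𝓝 (D s 1)) :=
        fun s => ((hD s).tendsto 1).comp tendsto_snd
      exact ((a2 s).mul (a1 t)).norm.div ((a2 t).mul (a1 s)).norm (by simp [hs, ht])
    rw [mul_comm (D t 1), div_self (by simp [hs, ht])] at h3
    obtain ⟨N, N1, N2⟩ := (eventually_prod_self_iff (r := fun x y =>
      ‖D s y * D t x‖ / ‖D t y * D s x‖ ∈ Set.Ioo 0 2)).1
      (h3.eventually (Ioo_mem_nhds one_pos one_lt_two))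
    obtain ⟨k, k1, x, hx, y, hy, γ, γ1, γ2⟩ := hrec N N1 k1
    choose M hM using fun j => (hU' _).1 (γ1 _ ((hU' _).2 ⟨Pi.single j 1, rfl⟩))
    have h4 : τ γ * B = B * (Matrix.of M)ᵀ := by
      ext i j
      simpa [mul_apply, mulVec, dotProduct, Pi.single_apply] using (congrFun (hM j) i).symm
    have h5 : ∀ s, D s y = (∏ i, μ (s i) : ℝ) ^ k * D s x * (Matrix.of M)ᵀ.det := fun s => by
      have : (τ y * B).submatrix s id = diagonal (fun i => (μ (s i) : ℂ) ^ k) *
          (τ x * B).submatrix s id * (Matrix.of M)ᵀ := by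
        rw [← γ2, map_mul, map_mul, map_pow, ha, diagonal_pow, Matrix.mul_assoc, h4,
          Matrix.mul_assoc, ← Matrix.mul_assoc (τ x), ← Matrix.mul_assoc]
        ext i j
        simp [mul_apply, diagonal_apply]
      simp only [D, this, det_mul, det_diagonal]
      push_cast
      rw [Finset.prod_pow]
    obtain ⟨b1, b2⟩ := N2 x hx y hy
    have b3 : 0 < ‖D t y * D s x‖ := (norm_nonneg _).lt_of_ne' fun h => by
      rw [h, div_zero] at b1; exact lt_irrefl _ b1
    have b4 : ‖D s y * D t x‖ = ((∏ i, μ (s i)) / ∏ i, μ (t i)) ^ k * ‖D t y * D s x‖ := by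
      have := h0 s
      have := h0 t
      simp only [h5 s, h5 t, norm_mul, norm_pow, Complex.norm_real, Real.norm_eq_abs,
        abs_of_pos (h0 _), div_pow]
      field_simp
    rw [b4, mul_div_cancel_right₀ _ b3.ne'] at b2
    linarith [pow_le_pow_right₀ hq.le k1]
  have h6 : ∀ i j, B i j ≠ 0 → μ i = μ (p j) := fun i j hij => by
    have a1 : D p 1 ≠ 0 := by simp [D, hp]
    have a2 : D (Function.update p j i) 1 ≠ 0 := by
      have : B.submatrix (Function.update p j i) id = updateRow 1 j (B i) := by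
        rw [← hp]
        ext a b
        by_cases h : a = j <;> simp [h, updateRow_apply]
      simp only [D, map_one, Matrix.one_mul, this]
      rwa [← cramer_transpose_apply, transpose_one, cramer_one]
    have a3 := le_antisymm (key _ _ a2 a1) (key _ _ a1 a2)
    rw [← Finset.mul_prod_erase _ _ (Finset.mem_univ j), ← Finset.mul_prod_erase _ _ (Finset.mem_univ j),
      Function.update_self, Finset.prod_congr rfl fun l hl => by
        rw [Function.update_of_ne (Finset.ne_of_mem_erase hl)]] at a3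
    exact mul_right_cancel₀ (Finset.prod_pos fun l _ => hμ _).ne' a3
  intro v hv
  obtain ⟨c, rfl⟩ := (hU' v).1 hv
  refine (hU' _).2 ⟨diagonal (fun j => (μ (p j) : ℂ)) *ᵥ c, ?_⟩
  rw [mulVec_mulVec, mulVec_mulVec, ha]
  congr 1
  ext i j
  by_cases h : B i j = 0
  · simp [h]
  · simp [h6 i j h, mul_comm]

end Pool.Agent.MP_646035_al.H43
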