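import Pool.Agent.MP_646035_al.H43.Lie
import Pool.Agent.MP_646035_al.H43.Herm

/-!
Structure of closed connected self-adjoint matrix groups with finite centre.
-/

set_option backward.isDefEq.respectTransparency false

namespace Pool.Agent.MP_646035_al.H43

open Matrix Filter Topology NormedSpace
open scoped Matrix.Norms.Operator

lemma one_param {B : Type*} [NormedRing B] [NormedAlgebra ℝ B] [NormedAlgebra ℚ B] [CompleteSpace B]
    {c : ℝ → B} (h0 : c 0 = 1) (hc : ∀ s t, c (s + t) = c s * c t) {a : B} (hd : HasDerivAt c a 0)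
    (t : ℝ) : c t = exp (t • a) := by
  have h1 : ∀ t, HasDerivAt c (c t * a) t := fun t => by
    have := HasDerivAt.comp_sub_const t t (by simpa using hd.const_mul (c t))
    simpa [← hc] using this
  have h2 : ∀ t, HasDerivAt (fun t => c t * exp (t • (-a))) 0 t := fun t => by
    simpa [mul_assoc] using (h1 t).fun_mul (hasDerivAt_exp_smul_const' (-a) t)
  have h3 := is_const_of_deriv_eq_zero (fun t => (h2 t).differentiableAt)
    (fun t => (h2 t).deriv) t 0
  simp only [h0, zero_smul, exp_zero, mul_one, smul_neg, neg_zero] at h3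
  have h4 := (ex (t • a)).inv_val
  change exp (-(t • a)) * exp (t • a) = 1 at h4
  rw [← mul_one (c t), ← h4, ← mul_assoc, h3, one_mul]

variable {n : Type} [Fintype n] [DecidableEq n] {G : Subgroup (Matrix n n ℂ)ˣ}

/-- Linear connected semisimple groups. -/
structure Kn (G : Subgroup (Matrix n n ℂ)ˣ) : Prop where
  closed : IsClosed (G : Set (Matrix n n ℂ)ˣ)
  conn : IsPreconnected (G : Set (Matrix n n ℂ)ˣ)
  adj : ∀ g ∈ G, star g ∈ G
  fin : Finite (Subgroup.center G)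

/-- The Lie algebra. -/
noncomputable abbrev Kn.g (hG : Kn G) : Submodule ℝ (Matrix n n ℂ) := lie hG.closed

lemma star_ex (X : Matrix n n ℂ) : star (ex X) = ex Xᴴ := Units.ext (exp_conjTranspose X).symm

variable (hG : Kn G)

lemma Kn.star_mem {X : Matrix n n ℂ} (hX : X ∈ hG.g) : Xᴴ ∈ hG.g := fun t => by
  simpa [star_ex] using hG.adj _ (hX t)

lemma Kn.central {g : G} (h : ∀ X ∈ hG.g, Commute (g.1 : Matrix n n ℂ) X) :
    g ∈ Subgroup.center G := by
  have : G ≤ Subgroup.centralizer {g.1} := by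
    refine (closure_ex hG.closed hG.conn).ge.trans ((Subgroup.closure_le _).2 ?_)
    rintro _ ⟨X, hX, rfl⟩ _ rfl
    exact Units.ext (h X hX).exp_right.eq
  exact Subgroup.mem_center_iff.2 fun x => Subtype.ext (this x.2 _ rfl).symm

include hG in
lemma Kn.pow_eq_one : ∃ m ≠ 0, ∀ g ∈ Subgroup.center G, ((g : G).1 : Matrix n n ℂ) ^ m = 1 := by
  have := hG.fin
  refine ⟨Nat.card (Subgroup.center G), Nat.card_pos.ne', fun g hg => ?_⟩
  rw [← Units.val_pow_eq_pow_val]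
  exact congrArg (fun x : Subgroup.center G => (x.1.1 : Matrix n n ℂ))
    (pow_card_eq_one' (x := (⟨g, hg⟩ : Subgroup.center G)))

lemma Kn.eq_zero {X : Matrix n n ℂ} (hX : X ∈ hG.g) (h : ∀ Y ∈ hG.g, X * Y - Y * X = 0) : X = 0 := by
  obtain ⟨m, h1, h2⟩ := hG.pow_eq_one
  have h3 : (fun t : ℝ => exp (t • m • X)) = fun _ => 1 := funext fun t => by
    rw [smul_comm, NormedSpace.exp_nsmul]
    exact h2 _ (hG.central (g := ⟨_, hX t⟩) fun Y hY =>
      (Commute.smul_left (sub_eq_zero.1 (h Y hY)) t).exp_left)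
  have h4 := hasDerivAt_ex (m • X)
  rw [h3] at h4
  have h5 := h4.unique (hasDerivAt_const _ _)
  rwa [← Nat.cast_smul_eq_nsmul ℝ, smul_eq_zero_iff_right (Nat.cast_ne_zero.2 h1)] at h5

omit [DecidableEq n] in
lemma trace_bracket (X Y Z : Matrix n n ℂ) :
    ((X * Y - Y * X) * Z).trace = (X * (Y * Z - Z * Y)).trace := by
  simp only [sub_mul, mul_sub, trace_sub, Matrix.mul_assoc]
  rw [trace_mul_comm Y (X * Z), Matrix.mul_assoc]

lemma Kn.perfect : hG.g ≤ Submodule.span ℝ {Z | ∃ X ∈ hG.g, ∃ Y ∈ hG.g, Z = X * Y - Y * X} := by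
  intro X hX
  obtain ⟨Y, h1, h2⟩ := exists_perp (Submodule.span ℝ {Z | ∃ X ∈ hG.g, ∃ Y ∈ hG.g, Z = X * Y - Y * X}) X
  have h3 : X - Y ∈ hG.g := sub_mem hX (Submodule.span_le.2 (by
    rintro _ ⟨A, hA, B, hB, rfl⟩; exact bracket_mem_lie _ hA hB) h1)
  rw [sub_eq_zero.1 (hG.eq_zero h3 fun Z hZ => eq_zero_of_re_trace ?_)]
  · exact h1
  set W := (X - Y) * Z - Z * (X - Y) with hW
  have h4 : W ∈ hG.g := bracket_mem_lie _ h3 hZ
  have h5 := h2 _ (Submodule.subset_span ⟨W, h4, Zᴴ, hG.star_mem hZ, rfl⟩)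
  rw [trace_mul_comm, hW, trace_bracket, ← hW, trace_mul_comm]
  simpa using h5

include hG in
lemma Kn.closed_map {K : Subgroup G} (hK : IsClosed (K : Set G)) :
    IsClosed (K.map G.subtype : Set (Matrix n n ℂ)ˣ) :=
  hG.closed.isClosedEmbedding_subtypeVal.isClosedMap _ hK

lemma Kn.eq_top {K : Subgroup G} (hK : IsClosed (K : Set G)) (h : hG.g ≤ lie (hG.closed_map hK)) :
    K = ⊤ := by
  have : G ≤ K.map G.subtype := by
    conv_lhs => rw [← closure_ex hG.closed hG.conn]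
    rw [Subgroup.closure_le]
    rintro _ ⟨X, hX, rfl⟩
    exact ex_mem _ (h hX)
  refine top_unique fun g _ => ?_
  obtain ⟨x, h1, h2⟩ := this g.2
  exact (Subtype.ext h2 : x = g) ▸ h1

include hG in
lemma Kn.char_eq_one (χ : G →* ℂ) (hχ : Continuous χ) (g : G) : χ g = 1 := by
  have hK : IsClosed (χ.ker : Set G) := isClosed_eq hχ continuous_const
  have hcom : ∀ a b : G, a * b * a⁻¹ * b⁻¹ ∈ χ.ker := fun a b => by
    rw [MonoidHom.mem_ker, map_mul, map_mul, map_mul, mul_comm (χ a), mul_assoc (χ b), ← map_mul,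
      mul_inv_cancel, map_one, mul_one, ← map_mul, mul_inv_cancel, map_one]
  have := hG.eq_top hK (hG.perfect.trans (Submodule.span_le.2 ?_))
  · exact (this ▸ Subgroup.mem_top g : g ∈ χ.ker)
  rintro _ ⟨X, hX, Y, hY, rfl⟩
  refine deriv_mem _ (fun s => ?_) ((hasDerivAt_conj X Y).sub_const Y)
  refine lie_curve (hG.closed_map hK)
    (c := fun t => ex (s • X) * ex (t • Y) * (ex (s • X))⁻¹ * (ex (t • Y))⁻¹) (fun t => ?_)
    (by simp [ex_zero, -ex_inv]) ?_
  · exact ⟨_, hcom ⟨_, hX s⟩ ⟨_, hY t⟩, rfl⟩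
  · have h1 := (ex (s • X)).val_inv
    change exp (s • X) * exp (-(s • X)) = 1 at h1
    simpa [h1, sub_eq_add_neg] using ((((hasDerivAt_ex Y).const_mul (exp (s • X))).mul_const
      (exp (-(s • X)))).fun_mul (hasDerivAt_ex (-Y)))

variable (G) in
/-- Subspaces invariant under conjugation. -/
def Inv (U : Submodule ℂ (Matrix n n ℂ)) : Prop := ∀ g ∈ G, ∀ X ∈ U, g.1 * X * (g⁻¹).1 ∈ U

variable (G) in
/-- Irreducible subspaces. -/
def Irr (U : Submodule ℂ (Matrix n n ℂ)) : Prop :=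
  U ≠ ⊥ ∧ Inv G U ∧ ∀ W ≤ U, Inv G W → W = ⊥ ∨ W = U

variable {hG} in
lemma Inv.bracket {U : Submodule ℂ (Matrix n n ℂ)} (hU : Inv G U) {X Y : Matrix n n ℂ}
    (hX : X ∈ Submodule.span ℂ (hG.g : Set (Matrix n n ℂ))) (hY : Y ∈ U) : X * Y - Y * X ∈ U := by
  induction hX using Submodule.span_induction with
  | mem X hX =>
    exact deriv_mem (U.restrictScalars ℝ) (fun t => by simpa using hU _ (hX t) Y hY)
      (hasDerivAt_conj X Y)
  | zero => simp
  | add a b _ _ h1 h2 => convert add_mem h1 h2 using 1; noncomm_ring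
  | smul c a _ h1 => simpa [smul_sub] using U.smul_mem c h1

lemma Kn.span_star {X : Matrix n n ℂ} (hX : X ∈ Submodule.span ℂ (hG.g : Set (Matrix n n ℂ))) :
    Xᴴ ∈ Submodule.span ℂ (hG.g : Set (Matrix n n ℂ)) := by
  induction hX using Submodule.span_induction with
  | mem X hX => exact Submodule.subset_span (hG.star_mem hX)
  | zero => simp
  | add a b _ _ h1 h2 => simpa using add_mem h1 h2
  | smul c a _ h1 => simpa using Submodule.smul_mem _ (star c) h1

lemma trace_conj (g : (Matrix n n ℂ)ˣ) (X Y : Matrix n n ℂ) :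
    (Xᴴ * (g.1 * Y * (g⁻¹).1)).trace = (((star g).1 * X * ((star g)⁻¹).1)ᴴ * Y).trace := by
  simp only [Units.coe_star, Units.coe_star_inv, star_eq_conjTranspose, conjTranspose_mul,
    conjTranspose_conjTranspose, ← Matrix.mul_assoc]
  rw [trace_mul_comm]
  simp only [Matrix.mul_assoc]

include hG in
lemma Kn.exists_irr {V : Submodule ℂ (Matrix n n ℂ)} (hV : Inv G V) :
    ∃ s : Finset (Submodule ℂ (Matrix n n ℂ)), (∀ U ∈ s, U ≤ V ∧ Irr G U) ∧ V ≤ s.sup id := by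
  obtain ⟨s, s1, s2⟩ := CompleteLattice.WellFoundedGT.isSupFiniteCompact
    (Submodule ℂ (Matrix n n ℂ)) {U | U ≤ V ∧ Irr G U}
  refine ⟨s, s1, fun X hX => ?_⟩
  rw [← s2]
  set S := sSup {U | U ≤ V ∧ Irr G U}
  obtain ⟨Y, h1, h2⟩ := exists_perp (S.restrictScalars ℝ) X
  suffices X - Y = 0 from sub_eq_zero.1 this ▸ h1
  have hS : Inv G S := fun g hg X hX => by
    have : S ≤ S.comap (LinearMap.mulLeftRight ℂ (g.1, (g⁻¹).1)) :=
      sSup_le fun U hU X hX => (le_sSup hU : U ≤ S) (hU.2.2.1 g hg X hX)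
    exact this hX
  let P : Submodule ℂ (Matrix n n ℂ) :=
    { carrier := {Z | Z ∈ V ∧ ∀ W ∈ S, (Wᴴ * Z).trace.re = 0}
      zero_mem' := by simp
      add_mem' := fun ha hb => ⟨add_mem ha.1 hb.1, fun W hW => by
        simp [mul_add, ha.2 W hW, hb.2 W hW]⟩
      smul_mem' := fun c Z hZ => ⟨V.smul_mem c hZ.1, fun W hW => by
        simpa using hZ.2 _ (S.smul_mem (star c) hW)⟩ }
  have hP : Inv G P := fun g hg Z hZ => ⟨hV g hg Z hZ.1, fun W hW => by
    rw [trace_conj]; exact hZ.2 _ (hS _ (hG.adj g hg) W hW)⟩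
  by_contra hc
  obtain ⟨U, ⟨u1, u2, u3⟩, u4⟩ := WellFounded.has_min (wellFounded_lt (α := Submodule ℂ _))
    {U | U ≤ P ∧ U ≠ ⊥ ∧ Inv G U} ⟨P, le_rfl, (Submodule.ne_bot_iff _).2 ⟨X - Y,
      ⟨sub_mem hX ((sSup_le fun U hU => hU.1 : S ≤ V) h1), h2⟩, hc⟩, hP⟩
  have h3 : U ≤ S := le_sSup ⟨fun Z hZ => (u1 hZ).1, u2, u3, fun W w1 w2 =>
    or_iff_not_imp_left.2 fun w3 => w1.eq_of_not_lt (u4 W ⟨w1.trans u1, w3, w2⟩)⟩
  exact u2 (bot_unique fun Z hZ => eq_zero_of_re_trace ((u1 hZ).2 Z (h3 hZ)))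

end Pool.Agent.MP_646035_al.H43
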