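import Mathlib

/-!
The Lie algebra of a closed subgroup of the unit group of a finite dimensional real algebra.
-/

namespace Pool.Agent.MP_646035_al.H43

open NormedSpace Filter Topology

variable {A : Type*} [NormedRing A] [NormedAlgebra ℝ A] [NormedAlgebra ℚ A] [CompleteSpace A]

/-- The exponential as a unit. -/
noncomputable def ex (X : A) : Aˣ where
  val := exp X
  inv := exp (-X)
  val_inv := by rw [← exp_add_of_commute (Commute.refl X).neg_right, add_neg_cancel, exp_zero]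
  inv_val := by rw [← exp_add_of_commute (Commute.refl X).neg_left, neg_add_cancel, exp_zero]

omit [NormedAlgebra ℝ A] in
@[simp] lemma ex_val (X : A) : (ex X : A) = exp X := rfl

omit [NormedAlgebra ℝ A] in
@[simp] lemma ex_inv (X : A) : (ex X)⁻¹ = ex (-X) := Units.ext (by simp [ex])

omit [NormedAlgebra ℝ A] in
lemma ex_zero : ex (0 : A) = 1 := Units.ext exp_zero

omit [NormedAlgebra ℝ A] in
lemma ex_zsmul (m : ℤ) (X : A) : ex (m • X) = ex X ^ m := by
  have h : ∀ n : ℕ, ex (n • X) = ex X ^ n := fun n => Units.ext (by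
    rw [Units.val_pow_eq_pow_val]; exact exp_nsmul n X)
  obtain ⟨n, rfl | rfl⟩ := m.eq_nat_or_neg
  · simpa using h n
  · rw [neg_smul, ← ex_inv, natCast_zsmul, h, zpow_neg, zpow_natCast]

omit [NormedAlgebra ℝ A] in
lemma continuous_ex : Continuous (ex : A → Aˣ) :=
  Units.continuous_iff.2 ⟨exp_continuous, exp_continuous.comp continuous_neg⟩

omit [NormedAlgebra ℚ A] in
lemma hasDerivAt_ex (X : A) : HasDerivAt (fun t : ℝ => exp (t • X)) X 0 := by
  simpa using hasDerivAt_exp_smul_const X (0 : ℝ)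

variable {H : Subgroup Aˣ}

lemma lie_lim (hH : IsClosed (H : Set Aˣ)) {α : Type*} {l : Filter α} [l.NeBot] {s : α → ℝ}
    {Y : α → A} {X : A} (hs : Tendsto s l (𝓝 0)) (hs0 : ∀ᶠ a in l, s a ≠ 0)
    (hY : ∀ᶠ a in l, ex (Y a) ∈ H) (h : Tendsto (fun a => (s a)⁻¹ • Y a) l (𝓝 X)) (t : ℝ) :
    ex (t • X) ∈ H := by
  have h1 : Tendsto (fun a => t - Int.fract (t / s a) * s a) l (𝓝 (t - 0)) :=
    tendsto_const_nhds.sub (squeeze_zero_norm (fun a => by
      rw [norm_mul]
      exact mul_le_of_le_one_left (norm_nonneg _) (by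
        rw [Real.norm_eq_abs, abs_of_nonneg (Int.fract_nonneg _)]
        exact (Int.fract_lt_one _).le)) (tendsto_zero_iff_norm_tendsto_zero.1 hs))
  rw [sub_zero] at h1
  refine hH.mem_of_tendsto ((continuous_ex.tendsto _).comp (h1.smul h)) ?_
  filter_upwards [hs0, hY] with a h2 h3
  have : (t - Int.fract (t / s a) * s a) • (s a)⁻¹ • Y a = ⌊t / s a⌋ • Y a := by
    rw [smul_smul, ← Int.cast_smul_eq_zsmul ℝ, Int.fract]
    congr 1
    field_simp
    ring
  rw [Function.comp, this, ex_zsmul]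
  exact zpow_mem h3 _

lemma lie_curve (hH : IsClosed (H : Set Aˣ)) {c : ℝ → Aˣ} (hc : ∀ t, c t ∈ H) (h0 : c 0 = 1)
    {X : A} (hX : HasDerivAt (fun t => (c t : A)) X 0) (t : ℝ) : ex (t • X) ∈ H := by
  have h1 : HasStrictFDerivAt exp (ContinuousLinearEquiv.refl ℝ A : A →L[ℝ] A) (0 : A) :=
    hasStrictFDerivAt_exp_zero
  have h2 := h1.to_localInverse.hasFDerivAt
  have h3 := h1.eventually_right_inverse
  have h4 := h1.localInverse_apply_image
  set lg := h1.localInverse exp _ 0
  have e : exp (0 : A) = c 0 := by simp [h0]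
  rw [e] at h2 h3 h4
  have h5 := (h2.comp_hasDerivAt 0 hX).tendsto_slope_zero
  refine lie_lim hH (l := 𝓝[≠] 0) (s := fun t => t) (Y := fun t => lg (c t))
    nhdsWithin_le_nhds self_mem_nhdsWithin ?_ (by simpa [h4] using h5) t
  filter_upwards [nhdsWithin_le_nhds (hX.continuousAt.eventually h3)] with s hs
  rw [show ex (lg (c s)) = c s from Units.ext hs]
  exact hc s

/-- The Lie algebra of a closed subgroup. -/
def lie (hH : IsClosed (H : Set Aˣ)) : Submodule ℝ A where
  carrier := {X | ∀ t : ℝ, ex (t • X) ∈ H}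
  zero_mem' t := by simp [ex_zero]
  smul_mem' c X hX t := by rw [smul_smul]; exact hX _
  add_mem' {X Y} hX hY := lie_curve hH (c := fun t => ex (t • X) * ex (t • Y))
    (fun t => mul_mem (hX t) (hY t)) (by simp [ex_zero])
    (by simpa using (hasDerivAt_ex X).fun_mul (hasDerivAt_ex Y))

variable (hH : IsClosed (H : Set Aˣ))

lemma mem_lie {X : A} : X ∈ lie hH ↔ ∀ t : ℝ, ex (t • X) ∈ H := Iff.rfl

lemma ex_mem {X : A} (hX : X ∈ lie hH) : ex X ∈ H := by simpa using hX 1

lemma conj_mem_lie {g : Aˣ} (hg : g ∈ H) {X : A} (hX : X ∈ lie hH) :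
    (g : A) * X * ↑g⁻¹ ∈ lie hH := fun t => by
  have : ex (t • ((g : A) * X * ↑g⁻¹)) = g * ex (t • X) * g⁻¹ := Units.ext (by
    simp [← exp_units_conj])
  rw [this]
  exact mul_mem (mul_mem hg (hX t)) (inv_mem hg)

omit [NormedAlgebra ℚ A] in
lemma hasDerivAt_conj (X Y : A) :
    HasDerivAt (fun t : ℝ => exp (t • X) * Y * exp (-(t • X))) (X * Y - Y * X) 0 := by
  have := ((hasDerivAt_ex X).mul_const Y).fun_mul (hasDerivAt_ex (-X))
  simpa [sub_eq_add_neg] using this

lemma deriv_mem {E : Type*} [NormedAddCommGroup E] [NormedSpace ℝ E] (V : Submodule ℝ E)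
    [FiniteDimensional ℝ V] {c : ℝ → E} (hc : ∀ t, c t ∈ V) {X : E} (h : HasDerivAt c X 0) :
    X ∈ V :=
  V.closed_of_finiteDimensional.mem_of_tendsto h.tendsto_slope_zero
    (Eventually.of_forall fun _ => V.smul_mem _ (sub_mem (hc _) (hc _)))

variable [FiniteDimensional ℝ A]

lemma bracket_mem_lie {X Y : A} (hX : X ∈ lie hH) (hY : Y ∈ lie hH) : X * Y - Y * X ∈ lie hH :=
  deriv_mem _ (fun t => by simpa using conj_mem_lie hH (hX t) hY) (hasDerivAt_conj X Y)

theorem closure_ex (hc : IsPreconnected (H : Set Aˣ)) :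
    Subgroup.closure (ex '' (lie hH : Set A)) = H := by
  set K := Subgroup.closure (ex '' (lie hH : Set A))
  have hKH : K ≤ H := (Subgroup.closure_le _).2 (by rintro _ ⟨X, hX, rfl⟩; exact ex_mem hH hX)
  obtain ⟨W, hW⟩ := (lie hH).exists_isCompl
  let p : A →L[ℝ] A := LinearMap.toContinuousLinearMap ((lie hH).projection W hW)
  have hp : ∀ X, p X ∈ lie hH := fun X => Submodule.projection_apply_mem hW X
  have hp' : ∀ X, X - p X ∈ W := fun X => (Submodule.projection_apply_eq_zero_iff hW).1 (by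
    rw [map_sub, sub_eq_zero]
    exact (Submodule.projection_apply_of_mem_left hW (hp X)).symm)
  have h0 : HasStrictFDerivAt exp (1 : A →L[ℝ] A) (0 : A) := hasStrictFDerivAt_exp_zero
  have h1 : HasStrictFDerivAt (fun X => exp (p X) * exp (X - p X))
      (ContinuousLinearEquiv.refl ℝ A : A →L[ℝ] A) (0 : A) := by
    have a1 : HasStrictFDerivAt (fun X => exp (p X)) _ 0 :=
      HasStrictFDerivAt.comp 0 (by simpa using h0) p.hasStrictFDerivAt
    have a2 : HasStrictFDerivAt (fun X => exp (X - p X)) _ 0 :=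
      HasStrictFDerivAt.comp (f := fun X => X - p X) 0 (by simpa using h0)
        ((hasStrictFDerivAt_id 0).sub p.hasStrictFDerivAt)
    refine (a1.fun_mul' a2).congr_fderiv ?_
    ext X
    simp
  have h3 := h1.eventually_right_inverse
  have h4 := h1.localInverse_tendsto
  set lg := h1.localInverse _ _ 0
  simp only [map_zero, sub_self, exp_zero, mul_one] at h3 h4
  have h5 : ∀ᶠ g in 𝓝 (1 : Aˣ), g ∈ H → g ∈ K := by
    by_contra hne
    have : (𝓝 (1 : Aˣ) ⊓ 𝓟 {g | g ∈ H ∧ g ∉ K}).NeBot := by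
      simpa [← frequently_iff_neBot] using hne
    obtain ⟨l, hl⟩ := Ultrafilter.exists_le (𝓝 (1 : Aˣ) ⊓ 𝓟 {g | g ∈ H ∧ g ∉ K})
    have a1 : Tendsto (fun g : Aˣ => (g : A)) l (𝓝 1) :=
      (Units.continuous_val.tendsto 1).mono_left (hl.trans inf_le_left)
    let Y : Aˣ → A := fun g => lg g - p (lg g)
    have a2 : Tendsto Y l (𝓝 0) := by
      simpa using (h4.comp a1).sub ((p.continuous.tendsto 0).comp (h4.comp a1))
    have a3 : ∀ᶠ g in (l : Filter Aˣ), Y g ≠ 0 ∧ ex (Y g) ∈ H := by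
      filter_upwards [a1.eventually h3, (hl.trans inf_le_right) (mem_principal_self _)]
        with g b1 b2
      have b3 : ex (p (lg g)) * ex (Y g) = g := Units.ext b1
      have b4 : ex (p (lg g)) ∈ K := Subgroup.subset_closure ⟨_, hp _, rfl⟩
      refine ⟨fun h => b2.2 (by rwa [← b3, h, ex_zero, mul_one]), ?_⟩
      rw [eq_inv_mul_of_mul_eq b3]
      exact mul_mem (inv_mem (hKH b4)) b2.1
    have : ProperSpace A := FiniteDimensional.proper_real A
    obtain ⟨X, X1, X2⟩ := (isCompact_sphere (0 : A) 1).ultrafilter_le_nhds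
      (l.map fun g => ‖Y g‖⁻¹ • Y g) (by
        rw [le_principal_iff, Ultrafilter.coe_map, mem_map]
        filter_upwards [a3] with g hg
        simp [norm_smul, hg.1])
    have a4 : X ∈ lie hH := lie_lim hH (l := (l : Filter Aˣ)) (Y := Y) (s := fun g => ‖Y g‖) (tendsto_zero_iff_norm_tendsto_zero.1 a2)
      (a3.mono fun g hg => norm_ne_zero_iff.2 hg.1) (a3.mono fun g hg => hg.2) X2
    have a5 : X ∈ W := W.closed_of_finiteDimensional.mem_of_tendsto X2
      (Eventually.of_forall fun g => W.smul_mem _ (hp' _))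
    have a6 : X = 0 := Submodule.disjoint_def.1 hW.disjoint X a4 a5
    simp [a6] at X1
  have h6 : IsOpen (K.subgroupOf H : Set H) := Subgroup.isOpen_of_mem_nhds _ (g := 1)
    (((continuous_subtype_val.tendsto (1 : H)).eventually h5).mono fun g hg => hg g.2)
  have := isPreconnected_iff_preconnectedSpace.1 hc
  have h7 := IsClopen.eq_univ ⟨Subgroup.isClosed_of_isOpen _ h6, h6⟩ ⟨1, one_mem _⟩
  exact le_antisymm hKH fun g hg => (h7.symm ▸ Set.mem_univ (⟨g, hg⟩ : H) :)

end Pool.Agent.MP_646035_al.H43
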